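import Pool.Agent.Helper74.LL.GoalsH

/-!
# Project LL (MP_cc6379_al), packet UB: the main estimate, type B
-/

set_option autoImplicit false

open LaurentPolynomial Pool.Agent.Helper15.RA Pool.Agent.Helper45.AM

noncomputable section

namespace Pool.Agent.Helper12.LL.UB

open Pool.Agent.Helper74.LL

theorem t (KD1h : KD1) (KD2h : KD2) (HWTh : HWT) (HW0h : HW0) (RA0h : RA0) (HRLh : HRL) :
    Pool.Agent.Helper74.LL.UB := by
  classical
  intro S W H _ _ _ X M n a b c x y hId hN0 hN1 hac hbc hab2 hXRx hXLy hRxb hRc hnLb hLc hlen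
  obtain ⟨hLg, hL1, hLpos, hLinv, hW⟩ := HWTh S W H X
  obtain ⟨hα1, hαs, hα0⟩ := HW0h S W H X
  obtain ⟨q1, q2, q3, q4, q5, q6, q7, q8, q9, q10, q11⟩ := KD2h S W X.M X.cs
  obtain ⟨-, -, pa3⟩ := Pool.Agent.Helper15.AM.k_gpa S W X.M X.cs ({a, c} : Set S)
  obtain ⟨-, -, -, -, pc5, -, -⟩ := Pool.Agent.Helper15.AM.k_gpc S W X.M X.cs ({b, c} : Set S)
  obtain ⟨t1, -, hl2, -, hr2, -⟩ := g_h1 S W H X.M X.cs X.L X.D.toHecke0
  have hmat := hLg.mat
  have hfin := hLg.fin
  have hba2 : X.M b a = 2 := by rw [X.M.symmetric b a]; exact hab2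
  have hac2 : X.M a c ≠ 2 := fun h => hbc (hmat a b c hab2 h)
  have hbc2 : X.M b c ≠ 2 := fun h => hac (hmat b a c hba2 h)
  have hab : a ≠ b := by
    rintro rfl
    rw [X.M.diagonal] at hab2
    exact absurd hab2 (by norm_num)
  -- the elements
  have hxa : X.cs.length (x * X.cs.simple a) = X.cs.length x + 1 := hXRx a (by simp)
  have hxc : X.cs.length (x * X.cs.simple c) = X.cs.length x + 1 := hXRx c (by simp)
  have hcy : X.cs.length (X.cs.simple c * y) = X.cs.length y + 1 := hXLy c (by simp)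
  set x' : W := x * X.cs.simple b with hx'
  have hlx' : X.cs.length x' + 1 = X.cs.length x := X.cs.isRightDescent_iff.mp hRxb
  have hx'b : x' * X.cs.simple b = x := by
    rw [hx', mul_assoc, X.cs.simple_mul_simple_self, mul_one]
  have hnx'b : ¬ X.cs.IsRightDescent x' b := by
    rw [X.cs.not_isRightDescent_iff, hx'b]
    exact hlx'.symm
  have hnx'a : ¬ X.cs.IsRightDescent x' a := by
    intro h
    have h1 := q5 b a x' hba2 hnx'b h
    rw [hx'b, X.cs.isRightDescent_iff] at h1
    omega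
  set u1 : W := x' * X.cs.simple a with hu1
  have hlu1 : X.cs.length u1 = X.cs.length x' + 1 := X.cs.not_isRightDescent_iff.mp hnx'a
  have hu1a : u1 * X.cs.simple a = x' := by
    rw [hu1, mul_assoc, X.cs.simple_mul_simple_self, mul_one]
  have hRu1a : X.cs.IsRightDescent u1 a := by
    rw [X.cs.isRightDescent_iff, hu1a]
    exact hlu1.symm
  obtain ⟨⟨x5, hx5, hu1e, hlu1e⟩, -, -⟩ := q1 a c hac (hfin a c) u1 hRu1a hRc
  set w : W := w0 X.cs a c with hw
  have hlx5 : X.cs.length x = X.cs.length x5 + X.M a c := by omega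
  set v1 : W := X.cs.simple b * (X.cs.simple c * y) with hv1
  have hlv1 : X.cs.length v1 = X.cs.length y + 2 := by
    have := X.cs.not_isLeftDescent_iff.mp hnLb
    rw [hv1]
    omega
  have hbv1 : X.cs.simple b * v1 = X.cs.simple c * y := by
    rw [hv1, ← mul_assoc, X.cs.simple_mul_simple_self, one_mul]
  have hLv1b : X.cs.IsLeftDescent v1 b := by
    rw [X.cs.isLeftDescent_iff, hbv1, hlv1, hcy]
  have hLv1c : X.cs.IsLeftDescent v1 c := by
    rw [hv1, ← mul_assoc]
    exact hLc
  obtain ⟨⟨y5, hy5, hv1e, hlv1e⟩, -, -⟩ := q2 b c hbc (hfin b c) v1 hLv1b hLv1c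
  set w' : W := w0 X.cs b c with hw'
  -- dihedral facts
  obtain ⟨⟨hwP, -, hwinv, hwl, -⟩, kd2, -, ⟨-, hwRc, -, -⟩, -, kd6, -⟩ :=
    KD1h S W X.M X.cs a c hac (hfin a c)
  obtain ⟨⟨hwP', -, -, hwl', -⟩, -, -, ⟨-, -, -, hwLc'⟩, -⟩ :=
    KD1h S W X.M X.cs b c hbc (hfin b c)
  rw [← hw] at hwP hwinv hwl hwRc
  rw [← hw'] at hwP' hwl' hwLc'
  have hsa : X.cs.simple a ∈ par X.cs {a, c} := Subgroup.subset_closure ⟨a, by simp, rfl⟩
  have hsc : X.cs.simple c ∈ par X.cs {a, c} := Subgroup.subset_closure ⟨c, by simp, rfl⟩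
  have hsc' : X.cs.simple c ∈ par X.cs {b, c} := Subgroup.subset_closure ⟨c, by simp, rfl⟩
  have hlh : X.cs.length (w * X.cs.simple c) + 1 = X.M a c := by
    have := X.cs.isRightDescent_iff.mp hwRc
    omega
  have hlk : X.cs.length (X.cs.simple c * w') + 1 = X.M b c := by
    have := X.cs.isLeftDescent_iff.mp hwLc'
    omega
  have hlx5h : X.cs.length (x5 * (w * X.cs.simple c)) + 1 = X.cs.length x5 + X.M a c := by
    rw [pa3 x5 hx5 _ (mul_mem hwP hsc)]
    omega
  have hlky5 : X.cs.length (X.cs.simple c * w' * y5) + 1 = X.M b c + X.cs.length y5 := by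
    rw [pc5 y5 hy5 _ (mul_mem hsc' hwP')]
    omega
  have hlwy5 : X.cs.length (w' * y5) = X.M b c + X.cs.length y5 := by
    rw [pc5 y5 hy5 _ hwP', hwl']
  obtain ⟨ra1, ra2⟩ := RA0h S W X.M X.cs hLg a b c x5 y5 hab hac hbc hac2 hbc2 hx5 hy5
  rw [← hw, ← hw'] at ra1 ra2
  -- reduced products
  have e1 : X.D.t (x5 * (w * X.cs.simple c)) * X.D.t (w' * y5) =
      X.D.t (x5 * (w * X.cs.simple c) * w' * y5) := by
    rw [X.D.mul, ← mul_assoc (x5 * (w * X.cs.simple c)) w' y5]
    rw [← mul_assoc (x5 * (w * X.cs.simple c)) w' y5]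
    omega
  have e2 : X.D.t (x5 * (w * X.cs.simple c)) * X.D.t (X.cs.simple c * w' * y5) =
      X.D.t (x5 * (w * X.cs.simple c) * (X.cs.simple c * w') * y5) := by
    rw [X.D.mul, ← mul_assoc (x5 * (w * X.cs.simple c)) (X.cs.simple c * w') y5]
    rw [← mul_assoc (x5 * (w * X.cs.simple c)) (X.cs.simple c * w') y5]
    omega
  -- the key identity
  have hls : ∀ i, X.cs.length (X.cs.simple i) = 1 := fun i => X.cs.length_simple i
  have tx : X.D.t x = X.D.t x' * X.D.t (X.cs.simple b) := by
    rw [X.D.mul, hx'b]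
    rw [hx'b, hls]
    omega
  have tu : X.D.t x' * X.D.t (X.cs.simple a) = X.D.t u1 := by
    rw [X.D.mul]
    rw [hls]
    exact hlu1
  obtain ⟨-, -, -, -, -, -, -, -, hlac, -⟩ := KD1h S W X.M X.cs a c hac (hfin a c)
  obtain ⟨-, -, -, -, -, -, -, -, hlab, -⟩ := KD1h S W X.M X.cs a b hab (hfin a b)
  have tac : X.D.t (X.cs.simple a * X.cs.simple c) =
      X.D.t (X.cs.simple a) * X.D.t (X.cs.simple c) := by
    rw [X.D.mul]
    rw [hls, hls]
    exact hlac
  have hcomm : X.cs.simple a * X.cs.simple b = X.cs.simple b * X.cs.simple a := q11 a b hab2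
  have tab : X.D.t (X.cs.simple b) * X.D.t (X.cs.simple a) =
      X.D.t (X.cs.simple a) * X.D.t (X.cs.simple b) := by
    rw [X.D.mul, X.D.mul, hcomm]
    · rw [hls, hls]
      exact hlab
    · rw [← hcomm, hls, hls]
      exact hlab
  have tcy : X.D.t (X.cs.simple c) * X.D.t y = X.D.t (X.cs.simple c * y) := by
    rw [X.D.mul]
    rw [hls]
    omega
  have tbv : X.D.t (X.cs.simple b) * X.D.t (X.cs.simple c * y) = X.D.t v1 := by
    rw [X.D.mul]
    rw [hls]
    change X.cs.length v1 = _
    omega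
  have key : X.D.t x * X.D.t (X.cs.simple a * X.cs.simple c) * X.D.t y = X.D.t u1 * X.D.t v1 := by
    calc X.D.t x * X.D.t (X.cs.simple a * X.cs.simple c) * X.D.t y
        = X.D.t x' * (X.D.t (X.cs.simple b) * X.D.t (X.cs.simple a)) *
            (X.D.t (X.cs.simple c) * X.D.t y) := by
          rw [tx, tac]
          noncomm_ring
      _ = X.D.t u1 * X.D.t v1 := by
          rw [tab, tcy, ← tu, ← tbv]
          noncomm_ring
  obtain ⟨hW1, hW2, -, hW4, -, hW6⟩ := hW a c hac
  rw [← hw] at hW4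
  have hW1' := hW1 hac2
  rw [key, hW2]
  have hLc1 := hLpos c
  have hLa1 := hLpos a
  by_cases hGe : X.Ge (M + 1) w
  · -- low level
    rw [hu1e]
    refine (HRLh S W H X M _ a c (X.D.t v1) hac hId hGe).1 x5 hx5 ?_
    intro z hz hzw
    obtain ⟨-, hz2, -, hz4, -, -⟩ := hW6 z hz hzw
    rw [← hw] at hzw hz2 hz4 ⊢
    by_cases hzh : z = w * X.cs.simple c
    · subst hzh
      rw [hv1e, e1]
      refine (TD.LP.t M _).mono ?_
      rw [hW4]
      push_cast
      have := le_max_left (0 : ℤ) ((M : ℤ) - (X.L (X.cs.simple a) + X.L (X.cs.simple c)))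
      omega
    · have hz2' := hz2 hzh
      have hmx := le_max_right (0 : ℤ) ((M : ℤ) - (X.L (X.cs.simple a) + X.L (X.cs.simple c)))
      by_cases hza : z = w * X.cs.simple a
      · subst hza
        have h1 : x5 * (w * X.cs.simple a) = x' := by
          rw [← mul_assoc, ← hu1e, hu1a]
        have h2 : X.D.t (x5 * (w * X.cs.simple a)) * X.D.t v1 =
            X.D.t x * X.D.t (X.cs.simple c) * X.D.t y := by
          rw [h1, ← tbv, ← tcy, tx]
          noncomm_ring
        rw [h2]
        have h3 : ¬ X.cs.IsRightDescent x c := by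
          rw [X.cs.not_isRightDescent_iff]
          exact hxc
        have h4 : ¬ X.cs.IsLeftDescent y c := by
          rw [X.cs.not_isLeftDescent_iff]
          exact hcy
        refine (hN1 x y c h3 h4 (le_of_eq hlen)).mono ?_
        push_cast at hmx ⊢
        omega
      · have hzl : X.cs.length z + 2 ≤ X.M a c := by
          obtain ⟨-, h2, -, -⟩ := kd2 z hz
          have h3 := h2 hzw
          by_contra hcon
          have h4 : X.cs.length z + 1 = X.M a c := by omega
          obtain ⟨-, -, -, h5⟩ := kd2 z⁻¹ (inv_mem hz)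
          rw [X.cs.length_inv] at h5
          have h6 : X.cs.length (z⁻¹ * w) = 1 := by
            change X.cs.length (z⁻¹ * w) + X.cs.length z = X.M a c at h5
            omega
          obtain ⟨h7, -⟩ := kd6 (z⁻¹ * w) (mul_mem (inv_mem hz) hwP)
          rcases h7 h6 with h8 | h8
          · apply hza
            have h9 : w = z * X.cs.simple a := by rw [← h8, mul_inv_cancel_left]
            rw [h9, mul_assoc, X.cs.simple_mul_simple_self, mul_one]
          · apply hzh
            have h9 : w = z * X.cs.simple c := by rw [← h8, mul_inv_cancel_left]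
            rw [h9, mul_assoc, X.cs.simple_mul_simple_self, mul_one]
        have hz4' := hz4 hzl
        refine (hN0 (x5 * z) v1 ?_).mono ?_
        · rw [pa3 x5 hx5 z hz]
          omega
        · push_cast at hmx ⊢
          omega
  · -- high level
    have hM : X.L w ≤ M := by
      by_contra hcon
      apply hGe
      refine ⟨1, w, 1, {a, c}, Or.inr ⟨a, c, rfl⟩, hwP, by simp, by simp, ?_⟩
      rw [hw, (hα0 a c hac).1]
      change M + 1 ≤ X.L w
      omega
    have hMa := hW1' a
    have hMc := hW1' c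
    rw [← hw] at hMa hMc
    have e3 : X.D.t u1 = X.D.t (x5 * (w * X.cs.simple c)) * X.D.t (X.cs.simple c) := by
      have h1 : x5 * (w * X.cs.simple c) * X.cs.simple c = u1 := by
        rw [mul_assoc, mul_assoc, X.cs.simple_mul_simple_self, mul_one, hu1e]
      rw [X.D.mul, h1]
      rw [h1, hls]
      omega
    have e4 : X.D.t v1 = X.D.t (X.cs.simple c) * X.D.t (X.cs.simple c * w' * y5) := by
      have h1 : X.cs.simple c * (X.cs.simple c * w' * y5) = v1 := by
        rw [mul_assoc, ← mul_assoc, X.cs.simple_mul_simple_self, one_mul, hv1e]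
      rw [X.D.mul, h1]
      rw [h1, hls]
      omega
    have e5 : X.D.t (X.cs.simple c) * X.D.t (X.cs.simple c) =
        xi (X.L (X.cs.simple c)) • X.D.t (X.cs.simple c) + 1 := by
      have h1 := hl2 c (X.cs.simple c) (by rw [X.cs.simple_mul_simple_self, hls, X.cs.length_one])
      rw [X.cs.simple_mul_simple_self, t1] at h1
      exact h1
    have e6 : X.D.t u1 * X.D.t v1 =
        xi (X.L (X.cs.simple c)) • (X.D.t (x5 * (w * X.cs.simple c)) * X.D.t (w' * y5)) +
          X.D.t (x5 * (w * X.cs.simple c)) * X.D.t (X.cs.simple c * w' * y5) := by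
      calc X.D.t u1 * X.D.t v1 = X.D.t (x5 * (w * X.cs.simple c)) *
            (X.D.t (X.cs.simple c) * X.D.t (X.cs.simple c)) *
              X.D.t (X.cs.simple c * w' * y5) := by
            rw [e3, e4]
            noncomm_ring
        _ = _ := by
            rw [e5, ← hv1e, e4, mul_add, add_mul, mul_one, mul_smul_comm, smul_mul_assoc]
            congr 2
            noncomm_ring
    rw [e6, e1, e2]
    have hf : X.LP M ((X.L (X.cs.simple c) : ℤ) + 1)
        (xi (X.L (X.cs.simple c)) • X.D.t (x5 * (w * X.cs.simple c) * w' * y5)) :=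
      TD.LP.smul_xi (TD.LP.t M _) le_rfl
    have hg : X.LP M ((X.L (X.cs.simple c) : ℤ) + 1)
        (X.D.t (x5 * (w * X.cs.simple c) * (X.cs.simple c * w') * y5)) :=
      (TD.LP.t M _).mono (by omega)
    refine (hf.add hg).mono (le_trans ?_ (le_max_right _ _))
    push_cast
    omega

end Pool.Agent.Helper12.LL.UB
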